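import Pool.Agent.helper3.XT.Spec

/-!
# MP_51d945_co, row xt:CFB: the degree bound
-/

set_option autoImplicit false

namespace Pool.Agent.XT

open Finset SimpleGraph

theorem CFB_sum {n : ℕ} (B : FS n) : B.card ≤ ∑ l, (dL B l).card := by
  classical
  rw [Finset.card_eq_sum_card_fiberwise (f := Prod.snd) (t := Finset.univ)
    (fun e _ => Finset.mem_univ _)]
  refine Finset.sum_le_sum fun l _ => ?_
  refine Finset.card_le_card_of_injOn Prod.fst ?_ ?_
  · intro e he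
    obtain ⟨h1, h2⟩ := Finset.mem_filter.1 he
    refine Finset.mem_coe.2 (Finset.mem_filter.2 ⟨Finset.mem_univ _, ?_⟩)
    rw [← h2]
    exact h1
  · intro e he e' he' h
    exact Prod.ext h ((Finset.mem_filter.1 he).2.trans (Finset.mem_filter.1 he').2.symm)

theorem CFB_sq {n : ℕ} (B : FS n) (hB : G8 B) : ∑ l, (dL B l).card ^ 2 ≤ 2 * n ^ 2 := by
  classical
  set S : Finset (Σ _ : Fin n, Fin n × Fin n) :=
    Finset.univ.sigma (fun l => dL B l ×ˢ dL B l) with hS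
  have h1 : S.card = ∑ l, (dL B l).card ^ 2 := by
    rw [hS, Finset.card_sigma]
    exact Finset.sum_congr rfl fun l _ => by rw [Finset.card_product, sq]
  have hmem : ∀ t ∈ S, (t.2.1, t.1) ∈ B ∧ (t.2.2, t.1) ∈ B := by
    intro t ht
    have h2 := Finset.mem_product.1 (Finset.mem_sigma.1 ht).2
    exact ⟨(Finset.mem_filter.1 h2.1).2, (Finset.mem_filter.1 h2.2).2⟩
  have hu : (Finset.univ : Finset (Fin n × Fin n)).card = n ^ 2 := by
    rw [Finset.card_univ, Fintype.card_prod, Fintype.card_fin, sq]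
  have h2 : (S.filter fun t => t.2.1 = t.2.2).card ≤ n ^ 2 := by
    rw [← hu]
    refine Finset.card_le_card_of_injOn (fun t => (t.1, t.2.1)) (fun t _ => Finset.mem_coe.2 (Finset.mem_univ _)) ?_
    rintro ⟨l, x, y⟩ ht ⟨l', x', y'⟩ ht' h
    have e1 : l = l' := (Prod.ext_iff.1 h).1
    have e2 : x = x' := (Prod.ext_iff.1 h).2
    have e3 : x = y := (Finset.mem_filter.1 ht).2
    have e4 : x' = y' := (Finset.mem_filter.1 ht').2
    subst e1 e2 e3 e4
    rfl
  have h3 : (S.filter fun t => ¬ t.2.1 = t.2.2).card ≤ n ^ 2 := by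
    rw [← hu]
    refine Finset.card_le_card_of_injOn (fun t => t.2) (fun t _ => Finset.mem_coe.2 (Finset.mem_univ _)) ?_
    rintro ⟨l, x, y⟩ ht ⟨l', x', y'⟩ ht' h
    have e1 : x = x' := (Prod.ext_iff.1 h).1
    have e2 : y = y' := (Prod.ext_iff.1 h).2
    subst e1 e2
    have e3 : ¬ x = y := (Finset.mem_filter.1 ht).2
    obtain ⟨a1, a2⟩ := hmem _ (Finset.mem_filter.1 ht).1
    obtain ⟨b1, b2⟩ := hmem _ (Finset.mem_filter.1 ht').1
    have e4 : l = l' := (hB.c4 x y l l' a1 a2 b1 b2).resolve_left e3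
    subst e4
    rfl
  have h4 := Finset.card_filter_add_card_filter_not (s := S) (fun t => t.2.1 = t.2.2)
  omega

theorem CFB : CFB_stmt := by
  intro κ D n B hκ hH
  have hn : (0 : ℝ) < n := by exact_mod_cast hH.n0
  have h1 : (B.card : ℝ) ≤ ∑ l, ((dL B l).card : ℝ) := by exact_mod_cast CFB_sum B
  have h2 : ∑ l, ((dL B l).card : ℝ) ^ 2 ≤ 2 * (n : ℝ) ^ 2 := by exact_mod_cast CFB_sq B hH.g8
  have h3 : (∑ l, ((dL B l).card : ℝ)) ^ 2 ≤ (n : ℝ) * ∑ l, ((dL B l).card : ℝ) ^ 2 := by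
    have := sq_sum_le_card_mul_sum_sq (s := (Finset.univ : Finset (Fin n)))
      (f := fun l => ((dL B l).card : ℝ))
    rwa [Finset.card_univ, Fintype.card_fin] at this
  have h4 : κ * n * D ≤ ∑ l, ((dL B l).card : ℝ) := hH.big.trans h1
  have h5 : 0 ≤ κ * n * D := by
    have := hH.d0
    positivity
  have h6 : (κ * n * D) ^ 2 ≤ (∑ l, ((dL B l).card : ℝ)) ^ 2 := pow_le_pow_left₀ h5 h4 2
  have h7 : (κ * n * D) ^ 2 ≤ n * (2 * (n : ℝ) ^ 2) :=
    h6.trans (h3.trans (mul_le_mul_of_nonneg_left h2 hn.le))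
  have h8 : (n : ℝ) ^ 2 * (κ ^ 2 * D ^ 2) ≤ (n : ℝ) ^ 2 * (2 * n) := by
    calc (n : ℝ) ^ 2 * (κ ^ 2 * D ^ 2) = (κ * n * D) ^ 2 := by ring
      _ ≤ n * (2 * (n : ℝ) ^ 2) := h7
      _ = _ := by ring
  exact le_of_mul_le_mul_left h8 (by positivity)

end Pool.Agent.XT
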